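import Pool.Agent.H7.LNN.KCa

/-!
# LNN, row KC: the moments
-/

set_option autoImplicit false

open MeasureTheory Metric Set
open scoped ENNReal

namespace Pool.Agent.H7.LNN

open Pool.Agent.H85.LK (E adm lam Ann)
open Pool.Agent.H69.LQ Pool.Agent.H69.LNN

/-- integrals of `W` over the sections of a measurable set -/
lemma BM_sec {N : ℕ} (hN : 3 ≤ N) {A : Set (Sp N × ℝ)} (hA : MeasurableSet A)
    (hA0 : ∀ x ∈ A, 0 < x.2) : BM fun θ : Sp N => ∫ r in {r | (θ, r) ∈ A}, W N r := by
  have hW0 : 0 ≤ᵐ[volume.restrict (Ioi (0 : ℝ))] W N := by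
    refine (ae_restrict_iff' measurableSet_Ioi).mpr (Filter.Eventually.of_forall fun r hr => ?_)
    exact W_nonneg N (le_of_lt hr)
  refine ⟨?_, ∫ r in Ioi 0, W N r, fun θ => ?_⟩
  · have h1 : (fun θ : Sp N => ∫ r in {r | (θ, r) ∈ A}, W N r) =
        fun θ : Sp N => ∫ r, A.indicator (fun x : Sp N × ℝ => W N x.2) (θ, r) := by
      funext θ
      have hm : MeasurableSet {r : ℝ | (θ, r) ∈ A} := measurable_prodMk_left hA
      rw [← integral_indicator hm]
      rfl
    rw [h1]
    apply StronglyMeasurable.measurable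
    apply StronglyMeasurable.integral_prod_right'
      (f := A.indicator (fun x : Sp N × ℝ => W N x.2))
    exact (((W_cont N).comp continuous_snd).measurable.indicator hA).stronglyMeasurable
  · have hm : MeasurableSet {r : ℝ | (θ, r) ∈ A} := measurable_prodMk_left hA
    have hsub : {r : ℝ | (θ, r) ∈ A} ⊆ Ioi 0 := fun r hr => hA0 _ hr
    rw [abs_of_nonneg (setIntegral_nonneg hm fun r hr => W_nonneg N (le_of_lt (hsub hr)))]
    exact setIntegral_mono_set (W_int hN) hW0 (Filter.Eventually.of_forall hsub)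

lemma exp_lin {N : ℕ} (hN : 4 ≤ N) {t : ℝ} (ht : 0 ≤ t) :
    t * Real.exp (-((N : ℝ) / 4) * t ^ 2) ≤ 1 := by
  have hN0 : (4 : ℝ) ≤ N := by exact_mod_cast hN
  have h1 : t ≤ Real.exp ((N : ℝ) / 4 * t ^ 2) := by
    have h2 := Real.add_one_le_exp ((N : ℝ) / 4 * t ^ 2)
    nlinarith [sq_nonneg (t - 1), sq_nonneg t]
  have h3 : -((N : ℝ) / 4) * t ^ 2 = -((N : ℝ) / 4 * t ^ 2) := by ring
  rw [h3, Real.exp_neg]
  exact mul_inv_le_one_of_le₀ h1 (Real.exp_pos _).le

lemma coord_le {N : ℕ} (x : E N) (i : Fin N) : |x i| ≤ ‖x‖ := by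
  have := EuclideanSpace.norm_sq_eq x
  have h2 : |x i| ^ 2 ≤ ‖x‖ ^ 2 := by
    rw [this]
    have h3 := Finset.single_le_sum (f := fun j => ‖x j‖ ^ 2) (fun j _ => sq_nonneg _)
      (Finset.mem_univ i)
    simpa using h3
  exact abs_le_of_sq_le_sq (by simpa using h2) (norm_nonneg _)

theorem pf_KC (hMP : T_MP) : T_KC := by
  refine ⟨1, 400, le_rfl, by norm_num, ?_⟩
  intro N Ω a R r₁ hN hΩ hfin ha ha1 hE hmom
  have hN3 : 3 ≤ N := by omega
  have hN4 : 4 ≤ N := by omega
  have hN0 : (400 : ℝ) ≤ N := by exact_mod_cast hN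
  obtain ⟨hprob, har, hareq, hpol⟩ := hMP N (by omega)
  have hb0 : 0 < bb N := by
    unfold bb
    positivity
  have hvB : 0 < vB N := by
    unfold vB
    rw [hareq] at har
    exact (mul_pos_iff_of_pos_left (by linarith)).mp har
  have hS : ∀ θ : Sp N, MeasurableSet (Sr Ω θ) := fun θ =>
    (hΩ.preimage (continuous_id.smul continuous_const)).measurableSet
  have hray : Continuous fun x : Sp N × ℝ => x.2 • (x.1 : E N) :=
    continuous_snd.smul (continuous_subtype_val.comp continuous_fst)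
  have hO : MeasurableSet {x : Sp N × ℝ | x.2 • (x.1 : E N) ∈ Ω} :=
    (hΩ.preimage hray).measurableSet
  set k : Sp N → ℝ := fun θ => ∫ r in Ioi 0 ∩ Sr Ω θ, W N r with hk
  set kf : Sp N → ℝ := fun θ => ∫ r in Ici (bb N) ∩ Sr Ω θ, W N r with hkf
  set k₀ : ℝ := ∫ r in Ioc 0 1, W N r with hk0
  have bk : BM k := by
    have hA : MeasurableSet ({x : Sp N × ℝ | x.2 ∈ Ioi (0 : ℝ)} ∩
        {x : Sp N × ℝ | x.2 • (x.1 : E N) ∈ Ω}) :=
      (measurableSet_Ioi.preimage measurable_snd).inter hO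
    exact BM_sec hN3 hA fun x hx => hx.1
  have bkf : BM kf := by
    have hA : MeasurableSet ({x : Sp N × ℝ | x.2 ∈ Ici (bb N)} ∩
        {x : Sp N × ℝ | x.2 • (x.1 : E N) ∈ Ω}) :=
      (measurableSet_Ici.preimage measurable_snd).inter hO
    exact BM_sec hN3 hA fun x hx => hb0.trans_le hx.1
  have hnear : ∀ θ, k θ - kf θ = ∫ r in Ioo 0 (bb N) ∩ Sr Ω θ, W N r := by
    intro θ
    have h1 : Ioi 0 ∩ Sr Ω θ = (Ioo 0 (bb N) ∩ Sr Ω θ) ∪ (Ici (bb N) ∩ Sr Ω θ) := by
      ext r
      constructor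
      · rintro ⟨h, h'⟩
        rcases lt_or_ge r (bb N) with h2 | h2
        · exact Or.inl ⟨⟨h, h2⟩, h'⟩
        · exact Or.inr ⟨h2, h'⟩
      · rintro (⟨h, h'⟩ | ⟨h, h'⟩)
        · exact ⟨h.1, h'⟩
        · exact ⟨hb0.trans_le h, h'⟩
    have hd : Disjoint (Ioo 0 (bb N) ∩ Sr Ω θ) (Ici (bb N) ∩ Sr Ω θ) := by
      rw [Set.disjoint_left]
      rintro r ⟨h, -⟩ ⟨h', -⟩
      exact absurd h.2 (not_lt.mpr h')
    simp only [hk, hkf]
    rw [h1, setIntegral_union hd (measurableSet_Ici.inter (hS θ))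
      ((W_int hN3).mono_set fun r hr => hr.1.1)
      ((W_int hN3).mono_set fun r hr => hb0.trans_le hr.1)]
    ring
  have hk0n : 0 ≤ k₀ := setIntegral_nonneg measurableSet_Ioc fun r hr => W_nonneg N hr.1.le
  have hk02 : k₀ ≤ 2 := by
    have := W_hole hN3 zero_le_one le_rfl
    simpa using this
  refine ⟨k₀, k, kf, bk, bkf, ?_, ?_, ?_, ?_, ?_⟩
  · -- moments
    intro j
    set g : E N → ℝ := Ω.indicator fun x => x j * Real.exp (-(N / 4) * ‖x‖ ^ 2) with hg
    have hgi : Integrable g := by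
      rw [hg, integrable_indicator_iff hΩ.measurableSet]
      have hc : Continuous fun x : E N => x j * Real.exp (-((N : ℝ) / 4) * ‖x‖ ^ 2) := by
        fun_prop
      refine Measure.integrableOn_of_bounded (M := 1) hfin hc.aestronglyMeasurable ?_
      refine Filter.Eventually.of_forall fun x => ?_
      rw [Real.norm_eq_abs, abs_mul, Real.abs_exp]
      exact (mul_le_mul_of_nonneg_right (coord_le x j) (Real.exp_pos _).le).trans
        (exp_lin hN4 (norm_nonneg x))
    obtain ⟨-, -, h3⟩ := hpol g hgi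
    have h4 : ∫ x, g x = 0 := by
      rw [hg, integral_indicator hΩ.measurableSet]
      exact hmom j
    have h5 : ∀ θ : Sp N, ∫ r in Ioi (0 : ℝ), r ^ (N - 1) * g (r • (θ : E N)) =
        Real.exp (-((N : ℝ) / 4)) / N * (k θ * (θ : E N) j) := by
      intro θ
      have h6 : ∀ r, r ^ (N - 1) * g (r • (θ : E N)) = (Sr Ω θ).indicator
          (fun r => Real.exp (-((N : ℝ) / 4)) / N * (θ : E N) j * W N r) r := by
        intro r
        by_cases hr : r • (θ : E N) ∈ Ω
        · rw [hg, indicator_of_mem hr, indicator_of_mem (show r ∈ Sr Ω θ from hr), norm_smul_sp,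
            sq_abs, PiLp.smul_apply, smul_eq_mul]
          unfold W w
          have h7 : Real.exp (-((N : ℝ) / 4) * (r ^ 2 - 1)) * Real.exp (-((N : ℝ) / 4)) =
              Real.exp (-((N : ℝ) / 4) * r ^ 2) := by
            rw [← Real.exp_add]
            congr 1
            ring
          rw [← h7]
          field_simp
        · rw [hg, indicator_of_notMem hr, indicator_of_notMem (show r ∉ Sr Ω θ from hr), mul_zero]
      simp_rw [h6]
      rw [setIntegral_indicator (hS θ), integral_const_mul]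
      simp only [hk]
      ring
    rw [h4] at h3
    simp_rw [h5] at h3
    rw [av_const_mul] at h3
    have h8 : 0 < Real.exp (-((N : ℝ) / 4)) / N := by positivity
    rcases mul_eq_zero.mp h3.symm with h | h
    · exact absurd h har.ne'
    · rcases mul_eq_zero.mp h with h' | h'
      · exact absurd h' h8.ne'
      · exact h'
  · intro θ
    exact setIntegral_nonneg (measurableSet_Ici.inter (hS θ)) fun r hr =>
      W_nonneg N (hb0.le.trans hr.1)
  · -- the far part
    set U : Set (E N) := Ω \ ball 0 (bb N) with hU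
    have hUm : MeasurableSet U := hΩ.measurableSet.diff measurableSet_ball
    have hUf : volume U ≠ ⊤ := ((measure_mono sdiff_subset).trans_lt hfin.lt_top).ne
    have hgi : Integrable (U.indicator fun _ : E N => (1 : ℝ)) := by
      rw [integrable_indicator_iff hUm]
      exact integrableOn_const hUf
    obtain ⟨h1, h2, h3⟩ := hpol _ hgi
    have h4 : ∫ x, U.indicator (fun _ : E N => (1 : ℝ)) x = volume.real U := by
      rw [integral_indicator hUm]
      simp
    rw [h4] at h3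
    set m : Sp N → ℝ := fun θ => ∫ r in Ioi (0 : ℝ), r ^ (N - 1) *
      U.indicator (fun _ : E N => (1 : ℝ)) (r • (θ : E N)) with hm
    have h5 : ∀ᵐ θ ∂(mS N), kf θ ≤ Real.exp (-Real.sqrt N) * (N * m θ) := by
      filter_upwards [h1] with θ hθ
      have h6 : kf θ = ∫ r in Ioi (0 : ℝ), (Ici (bb N) ∩ Sr Ω θ).indicator (W N) r := by
        have h61 : Ioi 0 ∩ (Ici (bb N) ∩ Sr Ω θ) = Ici (bb N) ∩ Sr Ω θ := by
          ext r
          exact ⟨fun h => h.2, fun h => ⟨hb0.trans_le h.1, h⟩⟩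
        rw [setIntegral_indicator (measurableSet_Ici.inter (hS θ)), h61]
      have h7 : Real.exp (-Real.sqrt N) * (N * m θ) = ∫ r in Ioi (0 : ℝ),
          (Real.exp (-Real.sqrt N) * N) * (r ^ (N - 1) *
            U.indicator (fun _ : E N => (1 : ℝ)) (r • (θ : E N))) := by
        rw [integral_const_mul]
        ring
      rw [h6, h7]
      refine setIntegral_mono_on ?_ (hθ.const_mul _) measurableSet_Ioi fun r hr => ?_
      · refine IntegrableOn.indicator (W_int hN3) (measurableSet_Ici.inter (hS θ))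
      have hr0 : 0 < r := hr
      by_cases hrm : r ∈ Ici (bb N) ∩ Sr Ω θ
      · have hrU : r • (θ : E N) ∈ U := by
          refine ⟨hrm.2, ?_⟩
          rw [mem_ball_zero_iff, norm_smul_sp, abs_of_pos hr0, not_lt]
          exact hrm.1
        rw [indicator_of_mem hrm, indicator_of_mem hrU]
        have h8 := w_far hN3 hrm.1
        unfold W
        calc (N : ℝ) * r ^ (N - 1) * w N r ≤ (N : ℝ) * r ^ (N - 1) * Real.exp (-Real.sqrt N) := by
              gcongr
          _ = _ := by ring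
      · rw [indicator_of_notMem hrm]
        have : 0 ≤ U.indicator (fun _ : E N => (1 : ℝ)) (r • (θ : E N)) :=
          indicator_nonneg (fun _ _ => zero_le_one) _
        positivity
    have h9 : av kf ≤ av fun θ => Real.exp (-Real.sqrt N) * (N * m θ) :=
      integral_mono_ae bkf.integrable ((h2.const_mul _).const_mul _) h5
    refine h9.trans (le_of_eq ?_)
    rw [av_const_mul, av_const_mul]
    congr 1
    have h10 : vB N ≠ 0 := hvB.ne'
    rw [eq_div_iff h10, h3, hareq]
    unfold vB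
    ring
  · -- rays close to the sphere
    intro θ hh
    rw [sub_right_comm (k θ) k₀ (kf θ), hnear θ]
    have hR0 : 0 < R θ := ha.trans_le (hE.lo θ)
    have hRe : R θ = Real.exp (hR R θ / N) := by
      unfold hR
      rw [mul_div_cancel_left₀ _ (by linarith : (N : ℝ) ≠ 0), Real.exp_log hR0]
    have hRlo : Real.exp (-(1 / (4 * (N : ℝ)))) ≤ R θ := by
      rw [hRe]
      refine Real.exp_le_exp.mpr ?_
      rw [le_div_iff₀ (by linarith)]
      have h1 : -(1 / (4 * (N : ℝ))) * N = -(1 / 4) := by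
        field_simp
      rw [h1]
      linarith [(abs_le.mp hh).1]
    have hdec : Ioo 0 (bb N) ∩ Sr Ω θ =
        ((Ioo 0 a ∩ Sr Ω θ) ∪ Ico a (R θ)) ∪ (Ioo (R θ) (bb N) ∩ Sr Ω θ) := by
      ext r
      constructor
      · rintro ⟨hr, hrS⟩
        rcases lt_or_ge r a with h | h
        · exact Or.inl (Or.inl ⟨⟨hr.1, h⟩, hrS⟩)
        rcases lt_trichotomy r (R θ) with h' | h' | h'
        · exact Or.inl (Or.inr ⟨h, h'⟩)
        · exfalso
          rw [h'] at hr hrS
          exact hE.out θ hr.2 hrS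
        · exact Or.inr ⟨⟨h', hr.2⟩, hrS⟩
      · rintro ((⟨hr, hrS⟩ | hr) | ⟨hr, hrS⟩)
        · exact ⟨⟨hr.1, hr.2.trans_le ((hE.lo θ).trans (hE.hi θ))⟩, hrS⟩
        · exact ⟨⟨ha.trans_le hr.1, hr.2.trans_le (hE.hi θ)⟩, hE.ins θ r hr.1 hr.2⟩
        · exact ⟨⟨hR0.trans hr.1, hr.2⟩, hrS⟩
    have hd1 : Disjoint (Ioo 0 a ∩ Sr Ω θ) (Ico a (R θ)) := by
      rw [Set.disjoint_left]
      rintro r ⟨h, -⟩ h'
      exact absurd h.2 (not_lt.mpr h'.1)
    have hd2 : Disjoint ((Ioo 0 a ∩ Sr Ω θ) ∪ Ico a (R θ)) (Ioo (R θ) (bb N) ∩ Sr Ω θ) := by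
      rw [Set.disjoint_left]
      rintro r (⟨h, -⟩ | h) ⟨h', -⟩
      · exact absurd (h.2.trans_le (hE.lo θ)) (not_lt.mpr h'.1.le)
      · exact absurd h.2 (not_lt.mpr h'.1.le)
    have i1 : IntegrableOn (W N) (Ioo 0 a ∩ Sr Ω θ) := (W_int hN3).mono_set fun r hr => hr.1.1
    have i2 : IntegrableOn (W N) (Ico a (R θ)) := (W_int hN3).mono_set fun r hr => ha.trans_le hr.1
    have i3 : IntegrableOn (W N) (Ioo (R θ) (bb N) ∩ Sr Ω θ) :=
      (W_int hN3).mono_set fun r hr => hR0.trans hr.1.1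
    have i4 : IntegrableOn (W N) (Ioo 0 a) := (W_int hN3).mono_set fun r hr => hr.1
    have m2 : MeasurableSet (Ioo (R θ) (bb N) ∩ Sr Ω θ) := measurableSet_Ioo.inter (hS θ)
    have e1 : ∫ r in Ioo 0 (bb N) ∩ Sr Ω θ, W N r =
        (∫ r in Ioo 0 a ∩ Sr Ω θ, W N r) + (∫ r in Ico a (R θ), W N r) +
          ∫ r in Ioo (R θ) (bb N) ∩ Sr Ω θ, W N r := by
      rw [hdec, setIntegral_union hd2 m2 (i1.union i2) i3,
        setIntegral_union hd1 measurableSet_Ico i1 i2]
    have e2 : (∫ r in Ioo 0 a ∩ Sr Ω θ, W N r) + (∫ r in Ioo 0 a \ Sr Ω θ, W N r) =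
        ∫ r in Ioo 0 a, W N r := integral_inter_add_diff (hS θ) i4
    have e3 : (∫ r in Ioo 0 a, W N r) + (∫ r in Ico a (R θ), W N r) =
        k₀ + ∫ r in (1 : ℝ)..R θ, W N r := by
      rw [← integral_Ioc_eq_integral_Ioo, integral_Ico_eq_integral_Ioo,
        ← integral_Ioc_eq_integral_Ioo, hk0, ← intervalIntegral.integral_of_le ha.le,
        ← intervalIntegral.integral_of_le (hE.lo θ), ← intervalIntegral.integral_of_le zero_le_one,
        intervalIntegral.integral_add_adjacent_intervals ((W_cont N).intervalIntegrable _ _)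
          ((W_cont N).intervalIntegrable _ _),
        intervalIntegral.integral_add_adjacent_intervals ((W_cont N).intervalIntegrable _ _)
          ((W_cont N).intervalIntegrable _ _)]
    have e4 : |(∫ r in (1 : ℝ)..R θ, W N r) - hR R θ| ≤ 2 * hR R θ ^ 2 := by
      have := W_phi hN4 hh
      rwa [← hRe] at this
    have e5 : ∫ r in Ioo (R θ) (bb N) ∩ Sr Ω θ, W N r ≤ 2 * ds Ω R θ := by
      unfold ds
      rw [← integral_const_mul]
      have hwt : IntegrableOn (fun r : ℝ => (N : ℝ) * r ^ (N - 1))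
          (Ioo (R θ) (bb N) ∩ Sr Ω θ) := by
        have hcont : Continuous fun r : ℝ => (N : ℝ) * r ^ (N - 1) := by fun_prop
        exact (hcont.continuousOn.integrableOn_Icc (a := R θ) (b := bb N)).mono_set
          (inter_subset_left.trans Ioo_subset_Icc_self)
      refine setIntegral_mono_on i3 (hwt.const_mul 2) m2 fun r hr => ?_
      have hr0 : 0 < r := hR0.trans hr.1.1
      have h1 := w_two hN3 (hRlo.trans hr.1.1.le)
      unfold W
      calc (N : ℝ) * r ^ (N - 1) * w N r ≤ (N : ℝ) * r ^ (N - 1) * 2 := by gcongr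
        _ = _ := by ring
    have e6 : 0 ≤ ∫ r in Ioo (R θ) (bb N) ∩ Sr Ω θ, W N r :=
      setIntegral_nonneg m2 fun r hr => W_nonneg N (hR0.trans hr.1.1).le
    have e7 : 0 ≤ ∫ r in Ioo 0 a \ Sr Ω θ, W N r :=
      setIntegral_nonneg (measurableSet_Ioo.diff (hS θ)) fun r hr => W_nonneg N hr.1.1.le
    have e8 : ∫ r in Ioo 0 a \ Sr Ω θ, W N r ≤ 2 * Real.sqrt (r₁ θ ^ N) := by
      refine le_trans ?_ (W_hole hN3 (hE.nn θ) ((hE.le θ).trans ha1))
      have hsub : Ioo 0 a \ Sr Ω θ ⊆ Ioc 0 (r₁ θ) := by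
        rintro r ⟨hr, hrS⟩
        refine ⟨hr.1, ?_⟩
        by_contra hcon
        push Not at hcon
        exact hrS (hE.full θ r hcon hr.2)
      refine setIntegral_mono_set ((W_int hN3).mono_set fun r hr => hr.1) ?_
        (Filter.Eventually.of_forall hsub)
      refine (ae_restrict_iff' measurableSet_Ioc).mpr (Filter.Eventually.of_forall fun r hr => ?_)
      exact W_nonneg N hr.1.le
    have h9 : 0 ≤ 1 / (N : ℝ) * |hR R θ| := by positivity
    have h10 := sq_nonneg (hR R θ)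
    obtain ⟨h11, h12⟩ := abs_le.mp e4
    rw [abs_le]
    constructor <;> linarith
  · -- all rays
    intro θ
    rw [sub_right_comm, hnear θ]
    have h1 : 0 ≤ ∫ r in Ioo 0 (bb N) ∩ Sr Ω θ, W N r :=
      setIntegral_nonneg (measurableSet_Ioo.inter (hS θ)) fun r hr => W_nonneg N hr.1.1.le
    have h2 := W_near hN (hS θ) (m := max (rho Ω θ) 1) (le_max_right _ _) (le_max_left _ _)
    have h3 : 1 ≤ Real.sqrt (max (rho Ω θ) 1) := Real.one_le_sqrt.mpr (le_max_right _ _)
    rw [abs_le]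
    constructor <;> linarith

end Pool.Agent.H7.LNN
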