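import Pool.Agent.H69.LQ.Lib
import Pool.Agent.H69.LNN.Targets

/-!
# LNN, row KC: the weight on a ray
-/

set_option autoImplicit false

open MeasureTheory Metric Set
open scoped ENNReal

namespace Pool.Agent.H7.LNN

open Pool.Agent.H85.LK (E adm lam Ann)
open Pool.Agent.H69.LQ Pool.Agent.H69.LNN

/-- the weight -/
noncomputable def w (N : ℕ) (r : ℝ) : ℝ := r * Real.exp (-((N : ℝ) / 4) * (r ^ 2 - 1))

/-- the weight with the volume element -/
noncomputable def W (N : ℕ) (r : ℝ) : ℝ := (N : ℝ) * r ^ (N - 1) * w N r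

lemma w_cont (N : ℕ) : Continuous (w N) := by
  unfold w
  fun_prop

lemma W_cont (N : ℕ) : Continuous (W N) := by
  unfold W
  have := w_cont N
  fun_prop

lemma w_nonneg (N : ℕ) {r : ℝ} (hr : 0 ≤ r) : 0 ≤ w N r := by
  unfold w
  positivity

lemma W_nonneg (N : ℕ) {r : ℝ} (hr : 0 ≤ r) : 0 ≤ W N r := by
  unfold W
  have := w_nonneg N hr
  positivity

lemma w_far {N : ℕ} (hN : 3 ≤ N) {r : ℝ} (hr : bb N ≤ r) : w N r ≤ Real.exp (-Real.sqrt N) := by
  have hN0 : (3 : ℝ) ≤ N := by exact_mod_cast hN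
  have hs0 : 0 < Real.sqrt N := Real.sqrt_pos.mpr (by linarith)
  have hss : Real.sqrt N * Real.sqrt N = N := Real.mul_self_sqrt (by linarith)
  have hb : 20 / Real.sqrt N ≤ r - 1 := by
    unfold bb at hr
    linarith
  have h20 : 0 < 20 / Real.sqrt N := by positivity
  have hr1 : 1 < r := by linarith
  have h1 : Real.log r ≤ r - 1 := Real.log_le_sub_one_of_pos (by linarith)
  have h2 : w N r = Real.exp (Real.log r + -((N : ℝ) / 4) * (r ^ 2 - 1)) := by
    rw [Real.exp_add, Real.exp_log (by linarith)]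
    rfl
  rw [h2]
  refine Real.exp_le_exp.mpr ?_
  have h3 : (r - 1) * 2 ≤ r ^ 2 - 1 := by nlinarith
  have h4 : Real.log r + -((N : ℝ) / 4) * (r ^ 2 - 1) ≤ (r - 1) * (1 - N / 2) := by nlinarith
  refine h4.trans ?_
  have h5 : (r - 1) * (1 - (N : ℝ) / 2) ≤ 20 / Real.sqrt N * (1 - N / 2) := by nlinarith
  refine h5.trans ?_
  have h6 : 20 / Real.sqrt N * (1 - (N : ℝ) / 2) = 20 / Real.sqrt N - 10 * Real.sqrt N := by
    field_simp
    nlinarith
  rw [h6]
  have h7 : 20 / Real.sqrt N ≤ 9 * Real.sqrt N := by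
    rw [div_le_iff₀ hs0]
    nlinarith
  linarith

lemma w_pow (N : ℕ) {r : ℝ} (hr : 0 < r) : w N r ≤ r * r ^ (-((N : ℝ) / 2)) := by
  unfold w
  refine mul_le_mul_of_nonneg_left ?_ hr.le
  rw [Real.rpow_def_of_pos hr]
  refine Real.exp_le_exp.mpr ?_
  have h1 : Real.log (r ^ 2) ≤ r ^ 2 - 1 := Real.log_le_sub_one_of_pos (by positivity)
  rw [Real.log_pow] at h1
  push_cast at h1
  have hN0 : (0 : ℝ) ≤ N := Nat.cast_nonneg N
  nlinarith

lemma w_two {N : ℕ} (hN : 3 ≤ N) {r : ℝ} (hr : Real.exp (-(1 / (4 * (N : ℝ)))) ≤ r) :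
    w N r ≤ 2 := by
  have hN0 : (3 : ℝ) ≤ N := by exact_mod_cast hN
  have hr0 : 0 < r := (Real.exp_pos _).trans_le hr
  rcases le_total 1 r with h | h
  · refine (w_pow N hr0).trans ?_
    have h1 : r * r ^ (-((N : ℝ) / 2)) = r ^ (1 - (N : ℝ) / 2) := by
      rw [Real.rpow_sub hr0, Real.rpow_one, Real.rpow_neg hr0.le]
      rfl
    rw [h1]
    exact (Real.rpow_le_one_of_one_le_of_nonpos h (by linarith)).trans (by norm_num)
  · have h1 : -(1 / (4 * (N : ℝ))) ≤ Real.log r := by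
      rw [← Real.log_exp (-(1 / (4 * (N : ℝ))))]
      exact Real.log_le_log (Real.exp_pos _) hr
    have h2 : Real.log (r ^ 2) ≤ r ^ 2 - 1 := Real.log_le_sub_one_of_pos (by positivity)
    rw [Real.log_pow] at h2
    push_cast at h2
    have h3 : Real.log r ≤ 0 := Real.log_nonpos hr0.le h
    have h4 : -((N : ℝ) / 4) * (r ^ 2 - 1) ≤ 1 / 8 := by
      have h5 : -((N : ℝ) / 4) * (r ^ 2 - 1) ≤ (N : ℝ) / 4 * (-2 * Real.log r) := by nlinarith
      have h6 : (N : ℝ) / 4 * (-2 * Real.log r) ≤ (N : ℝ) / 4 * (2 * (1 / (4 * (N : ℝ)))) := by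
        nlinarith
      have h7 : (N : ℝ) / 4 * (2 * (1 / (4 * (N : ℝ)))) = 1 / 8 := by
        field_simp
        norm_num
      linarith
    have h8 : Real.exp (-((N : ℝ) / 4) * (r ^ 2 - 1)) ≤ 2 := by
      calc Real.exp (-((N : ℝ) / 4) * (r ^ 2 - 1)) ≤ Real.exp (1 / 8) := Real.exp_le_exp.mpr h4
        _ ≤ Real.exp (Real.log 2) := Real.exp_le_exp.mpr (by linarith [Real.log_two_gt_d9])
        _ = 2 := Real.exp_log (by norm_num)
    unfold w
    nlinarith [Real.exp_pos (-((N : ℝ) / 4) * (r ^ 2 - 1))]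

/-- `W` is integrable. -/
lemma W_int {N : ℕ} (hN : 3 ≤ N) : IntegrableOn (W N) (Ioi 0) := by
  have hN0 : (3 : ℝ) ≤ N := by exact_mod_cast hN
  have h1 := (integrableOn_rpow_mul_exp_neg_mul_sq (b := (N : ℝ) / 4) (by linarith)
    (s := (N : ℝ)) (by linarith)).const_mul ((N : ℝ) * Real.exp ((N : ℝ) / 4))
  refine IntegrableOn.congr_fun (s := Ioi 0) h1 (fun r hr => ?_) measurableSet_Ioi
  have hr0 : 0 < r := hr
  have h2 : r ^ N = r ^ (N - 1) * r := by
    rw [← pow_succ, Nat.sub_add_cancel (by omega)]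
  show (N : ℝ) * Real.exp ((N : ℝ) / 4) * (r ^ (N : ℝ) * Real.exp (-((N : ℝ) / 4) * r ^ 2)) = W N r
  unfold W w
  rw [Real.rpow_natCast, h2]
  have h3 : Real.exp (-((N : ℝ) / 4) * (r ^ 2 - 1)) =
      Real.exp ((N : ℝ) / 4) * Real.exp (-((N : ℝ) / 4) * r ^ 2) := by
    rw [← Real.exp_add]
    congr 1
    ring
  rw [h3]
  ring

/-- the comparison function -/
noncomputable def V (N : ℕ) (r : ℝ) : ℝ := (N : ℝ) * r ^ ((N : ℝ) / 2 - 1)

lemma V_int {N : ℕ} (hN : 3 ≤ N) {c : ℝ} (hc : 0 ≤ c) :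
    IntegrableOn (V N) (Ioc 0 c) ∧ ∫ r in Ioc 0 c, V N r = 2 * Real.sqrt (c ^ N) := by
  have hN0 : (3 : ℝ) ≤ N := by exact_mod_cast hN
  have h1 : IntervalIntegrable (fun r : ℝ => r ^ ((N : ℝ) / 2 - 1)) volume 0 c :=
    intervalIntegral.intervalIntegrable_rpow' (by linarith)
  have h2 : IntegrableOn (fun r : ℝ => r ^ ((N : ℝ) / 2 - 1)) (Ioc 0 c) :=
    (intervalIntegrable_iff_integrableOn_Ioc_of_le hc).mp h1
  refine ⟨h2.const_mul _, ?_⟩
  unfold V
  rw [integral_const_mul, ← intervalIntegral.integral_of_le hc,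
    integral_rpow (Or.inl (by linarith))]
  have h3 : (N : ℝ) / 2 - 1 + 1 = N / 2 := by ring
  have h4 : (0 : ℝ) ^ ((N : ℝ) / 2) = 0 := Real.zero_rpow (by linarith)
  have h5 : c ^ ((N : ℝ) / 2) = Real.sqrt (c ^ N) := by
    rw [Real.sqrt_eq_rpow, ← Real.rpow_natCast, ← Real.rpow_mul hc]
    congr 1
    ring
  rw [h3, h4, h5]
  field_simp
  ring

lemma W_le_V {N : ℕ} (hN : 3 ≤ N) {r c : ℝ} (hr : 0 < r) (hc : r ≤ c) : W N r ≤ c * V N r := by
  have h1 := w_pow N hr
  have h2 : r ^ (N - 1) * (r ^ (-((N : ℝ) / 2))) = r ^ ((N : ℝ) / 2 - 1) := by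
    rw [← Real.rpow_natCast, ← Real.rpow_add hr]
    congr 1
    rw [Nat.cast_sub (by omega)]
    push_cast
    ring
  unfold W V
  calc (N : ℝ) * r ^ (N - 1) * w N r ≤ (N : ℝ) * r ^ (N - 1) * (r * r ^ (-((N : ℝ) / 2))) := by
        gcongr
    _ = r * ((N : ℝ) * (r ^ (N - 1) * r ^ (-((N : ℝ) / 2)))) := by ring
    _ = r * ((N : ℝ) * r ^ ((N : ℝ) / 2 - 1)) := by rw [h2]
    _ ≤ c * ((N : ℝ) * r ^ ((N : ℝ) / 2 - 1)) := by gcongr

/-- the integral of `W` up to `c ≤ 1` -/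
lemma W_hole {N : ℕ} (hN : 3 ≤ N) {c : ℝ} (hc : 0 ≤ c) (hc1 : c ≤ 1) :
    ∫ r in Ioc 0 c, W N r ≤ 2 * Real.sqrt (c ^ N) := by
  obtain ⟨h1, h2⟩ := V_int hN hc
  rw [← h2]
  refine setIntegral_mono_on ((W_int hN).mono_set Ioc_subset_Ioi_self) h1 measurableSet_Ioc
    fun r hr => ?_
  have := W_le_V hN hr.1 (hr.2.trans hc1)
  linarith

/-- the bathtub estimate -/
lemma W_near {N : ℕ} (hN : 400 ≤ N) {S : Set ℝ} (hS : MeasurableSet S) {m : ℝ} (hm : 1 ≤ m)
    (hv : ∫ r in Ioo 0 (bb N) ∩ S, (N : ℝ) * r ^ (N - 1) ≤ m) :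
    ∫ r in Ioo 0 (bb N) ∩ S, W N r ≤ 6 * Real.sqrt m := by
  have hN3 : 3 ≤ N := by omega
  have hN0 : (400 : ℝ) ≤ N := by exact_mod_cast hN
  have hs20 : 20 ≤ Real.sqrt N := by
    rw [show (20 : ℝ) = Real.sqrt (20 ^ 2) by rw [Real.sqrt_sq (by norm_num)]]
    exact Real.sqrt_le_sqrt (by linarith)
  have hb2 : bb N ≤ 2 := by
    unfold bb
    have : 20 / Real.sqrt N ≤ 1 := by
      rw [div_le_one (by linarith)]
      exact hs20
    linarith
  have hb0 : 0 ≤ bb N := by
    unfold bb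
    positivity
  set c := m ^ (1 / (N : ℝ)) with hcd
  have hm0 : 0 < m := by linarith
  have hc0 : 0 < c := by positivity
  have hcN : c ^ N = m := by
    rw [hcd, ← Real.rpow_natCast, ← Real.rpow_mul hm0.le]
    rw [one_div, inv_mul_cancel₀ (by linarith), Real.rpow_one]
  obtain ⟨h1, h2⟩ := V_int hN3 hc0.le
  rw [hcN] at h2
  have hsm : 0 < Real.sqrt m := Real.sqrt_pos.mpr hm0
  set T := Ioo 0 (bb N) ∩ S with hT
  have hTm : MeasurableSet T := measurableSet_Ioo.inter hS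
  have hwt : IntegrableOn (fun r : ℝ => (N : ℝ) * r ^ (N - 1)) T := by
    have hcont : Continuous fun r : ℝ => (N : ℝ) * r ^ (N - 1) := by fun_prop
    exact (hcont.continuousOn.integrableOn_Icc (a := 0) (b := bb N)).mono_set
      (inter_subset_left.trans Ioo_subset_Icc_self)
  have hi1 : IntegrableOn ((Ioc 0 c).indicator (V N)) T :=
    ((integrable_indicator_iff measurableSet_Ioc).mpr h1).integrableOn
  have hi2 : IntegrableOn (fun r : ℝ => (Real.sqrt m)⁻¹ * ((N : ℝ) * r ^ (N - 1))) T :=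
    hwt.const_mul _
  have hpt : ∀ r ∈ T, W N r ≤ 2 * ((Ioc 0 c).indicator (V N) r +
      (Real.sqrt m)⁻¹ * ((N : ℝ) * r ^ (N - 1))) := by
    intro r hr
    have hr0 : 0 < r := hr.1.1
    have h3 := W_le_V hN3 hr0 (hr.1.2.le.trans hb2)
    refine h3.trans ?_
    refine mul_le_mul_of_nonneg_left ?_ (by norm_num)
    by_cases hrc : r ≤ c
    · rw [indicator_of_mem (show r ∈ Ioc 0 c from ⟨hr0, hrc⟩)]
      have : 0 ≤ (Real.sqrt m)⁻¹ * ((N : ℝ) * r ^ (N - 1)) := by positivity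
      linarith
    · rw [indicator_of_notMem (fun h => hrc h.2), zero_add]
      push Not at hrc
      have h4 : V N r = r ^ (-((N : ℝ) / 2)) * ((N : ℝ) * r ^ (N - 1)) := by
        unfold V
        have h5 : r ^ (N - 1) * (r ^ (-((N : ℝ) / 2))) = r ^ ((N : ℝ) / 2 - 1) := by
          rw [← Real.rpow_natCast, ← Real.rpow_add hr0]
          congr 1
          rw [Nat.cast_sub (by omega)]
          push_cast
          ring
        rw [← h5]
        ring
      rw [h4]
      refine mul_le_mul_of_nonneg_right ?_ (by positivity)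
      have h6 : r ^ (-((N : ℝ) / 2)) ≤ c ^ (-((N : ℝ) / 2)) :=
        Real.rpow_le_rpow_of_nonpos hc0 hrc.le (by linarith)
      refine h6.trans (le_of_eq ?_)
      rw [Real.rpow_neg hc0.le, Real.sqrt_eq_rpow]
      congr 1
      rw [← hcN, ← Real.rpow_natCast, ← Real.rpow_mul hc0.le]
      congr 1
      ring
  have hWi : IntegrableOn (W N) T :=
    (W_int hN3).mono_set (inter_subset_left.trans Ioo_subset_Ioi_self)
  have hv0 : ∫ r in T, (Ioc 0 c).indicator (V N) r ≤ 2 * Real.sqrt m := by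
    rw [← h2, ← integral_indicator measurableSet_Ioc]
    refine setIntegral_le_integral ((integrable_indicator_iff measurableSet_Ioc).mpr h1) ?_
    refine Filter.Eventually.of_forall fun r => indicator_nonneg (fun r hr => ?_) r
    unfold V
    exact mul_nonneg (by positivity) (Real.rpow_nonneg hr.1.le _)
  calc ∫ r in T, W N r
      ≤ ∫ r in T, 2 * ((Ioc 0 c).indicator (V N) r +
          (Real.sqrt m)⁻¹ * ((N : ℝ) * r ^ (N - 1))) :=
        setIntegral_mono_on hWi ((hi1.add hi2).const_mul 2) hTm hpt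
    _ = 2 * ((∫ r in T, (Ioc 0 c).indicator (V N) r) +
          (Real.sqrt m)⁻¹ * ∫ r in T, (N : ℝ) * r ^ (N - 1)) := by
        rw [integral_const_mul, integral_add hi1 hi2, integral_const_mul]
    _ ≤ 2 * (2 * Real.sqrt m + (Real.sqrt m)⁻¹ * m) := by gcongr
    _ = 6 * Real.sqrt m := by
        have h7 : (Real.sqrt m)⁻¹ * m = Real.sqrt m := by
          nth_rewrite 2 [← Real.mul_self_sqrt hm0.le]
          field_simp
        rw [h7]
        ring

/-- the integral of `W` between `1` and `R` -/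
lemma W_phi {N : ℕ} (hN : 4 ≤ N) {h : ℝ} (hh : |h| ≤ 1 / 4) :
    |(∫ r in (1 : ℝ)..Real.exp (h / N), W N r) - h| ≤ 2 * h ^ 2 := by
  have hN0 : (4 : ℝ) ≤ N := by exact_mod_cast hN
  set Φ : ℝ → ℝ := fun t => (∫ r in (1 : ℝ)..Real.exp (t / N), W N r) - t with hΦ
  set e : ℝ → ℝ := fun t => t + t / N - (N : ℝ) / 4 * (Real.exp (2 * t / N) - 1) with he
  have hder : ∀ t, HasDerivAt Φ (Real.exp (e t) - 1) t := by
    intro t
    have h1 : HasDerivAt (fun x : ℝ => ∫ r in (1 : ℝ)..x, W N r) (W N (Real.exp (t / N)))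
        (Real.exp (t / N)) :=
      intervalIntegral.integral_hasDerivAt_right ((W_cont N).intervalIntegrable _ _)
        ((W_cont N).stronglyMeasurableAtFilter _ _) (W_cont N).continuousAt
    have h2 : HasDerivAt (fun t : ℝ => Real.exp (t / N)) (Real.exp (t / N) * (1 / N)) t :=
      ((hasDerivAt_id t).div_const (N : ℝ)).exp
    have h3 := (h1.comp t h2).sub (hasDerivAt_id t)
    have h4 : W N (Real.exp (t / N)) * (Real.exp (t / N) * (1 / N)) = Real.exp (e t) := by
      unfold W w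
      have h5 : Real.exp (t / N) ^ (N - 1) * Real.exp (t / N) = Real.exp t := by
        rw [← pow_succ, Nat.sub_add_cancel (by omega), ← Real.exp_nat_mul]
        congr 1
        field_simp
      have h6 : Real.exp (t / N) ^ 2 = Real.exp (2 * t / N) := by
        rw [← Real.exp_nat_mul]
        congr 1
        push_cast
        ring
      rw [h6]
      have h7 : Real.exp (e t) = Real.exp t * Real.exp (t / N) *
          Real.exp (-((N : ℝ) / 4) * (Real.exp (2 * t / N) - 1)) := by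
        rw [← Real.exp_add, ← Real.exp_add]
        congr 1
        rw [he]
        ring
      rw [h7, ← h5]
      field_simp
    rw [h4] at h3
    exact h3
  have hbd : ∀ t, |t| ≤ |h| → |Real.exp (e t) - 1| ≤ 2 * |h| := by
    intro t ht
    have ht4 : |t| ≤ 1 / 4 := ht.trans hh
    have hx : |2 * t / (N : ℝ)| ≤ 1 := by
      rw [abs_div, abs_mul, abs_of_pos (by linarith : (0 : ℝ) < N), abs_two,
        div_le_one (by linarith)]
      linarith
    have h1 := Real.abs_exp_sub_one_sub_id_le hx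
    have h2 : |e t - t / 2| ≤ |t| / N + t ^ 2 / N := by
      have h3 : e t - t / 2 = t / N - (N : ℝ) / 4 * (Real.exp (2 * t / N) - 1 - 2 * t / N) := by
        rw [he]
        field_simp
        ring
      rw [h3]
      refine (abs_sub _ _).trans ?_
      rw [abs_div, abs_of_pos (by linarith : (0 : ℝ) < N), abs_mul,
        abs_of_pos (by linarith : (0 : ℝ) < (N : ℝ) / 4)]
      have h4 : (N : ℝ) / 4 * |Real.exp (2 * t / N) - 1 - 2 * t / N| ≤
          (N : ℝ) / 4 * (2 * t / N) ^ 2 := by gcongr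
      have h5 : (N : ℝ) / 4 * (2 * t / N) ^ 2 = t ^ 2 / N := by
        field_simp
        ring
      linarith
    have h6 : |e t| ≤ 7 / 8 * |t| := by
      have h70 := abs_nonneg t
      have h7 : |e t| ≤ |t| / 2 + (|t| / N + t ^ 2 / N) := by
        have h8 := abs_add_le (e t - t / 2) (t / 2)
        rw [sub_add_cancel, abs_div, abs_two] at h8
        linarith
      have h9 : |t| / N ≤ |t| / 4 := by gcongr
      have h10 : t ^ 2 / N ≤ |t| / 16 := by
        rw [← sq_abs, div_le_div_iff₀ (by linarith) (by norm_num)]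
        nlinarith [abs_nonneg t]
      linarith
    have h11 : |e t| ≤ 1 := by linarith
    have h12 := Real.abs_exp_sub_one_sub_id_le h11
    have h13 : |Real.exp (e t) - 1| ≤ |e t| + e t ^ 2 := by
      have h14 := abs_add_le (Real.exp (e t) - 1 - e t) (e t)
      rw [sub_add_cancel] at h14
      linarith
    have h15 : e t ^ 2 ≤ |e t| := by
      rw [← sq_abs]
      nlinarith [abs_nonneg (e t)]
    have := abs_nonneg t
    linarith
  have hseg := Convex.norm_image_sub_le_of_norm_hasDerivWithin_le (f := Φ)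
    (f' := fun t => Real.exp (e t) - 1) (s := Icc (-|h|) |h|) (C := 2 * |h|) (x := 0) (y := h)
    (fun t _ => (hder t).hasDerivWithinAt)
    (fun t ht => hbd t (abs_le.mpr ht)) (convex_Icc _ _)
    ⟨by linarith [abs_nonneg h], abs_nonneg h⟩ ⟨neg_abs_le h, le_abs_self h⟩
  have hΦ0 : Φ 0 = 0 := by
    rw [hΦ]
    simp
  rw [hΦ0, sub_zero, sub_zero, Real.norm_eq_abs, Real.norm_eq_abs] at hseg
  calc |(∫ r in (1 : ℝ)..Real.exp (h / N), W N r) - h| ≤ 2 * |h| * |h| := hseg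
    _ = 2 * h ^ 2 := by
      rw [mul_assoc, abs_mul_abs_self]
      ring

end Pool.Agent.H7.LNN
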